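import Pool.Agent.H12.UCR.Stmts

/-!
# MP_e822af, board `ucr`, row BWD: the criterion implies residuality
-/

set_option autoImplicit false

open MeasureTheory Filter Topology

namespace Pool.UCR

/-- the averages of index at least `M` are at most `ε` -/
private def bwdF (p q k : ℕ) (ε : ℝ) (M : ℕ) : Set (PP p) := {μ | ∀ N : ℕ, M ≤ N → ‖Av q k N (fc μ)‖ ≤ ε}

private def bwdU (p q k : ℕ) (ε : ℝ) : Set (PP p) := ⋃ M : ℕ, interior (bwdF p q k ε M)

private lemma bwd_avc (h2 : CTFS) (p q k N : ℕ) : Continuous (fun μ : PP p => Av q k N (fc μ)) := by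
  unfold Av
  exact continuous_const.mul (continuous_finsetSum _ fun n _ => h2 p (k * q ^ n))

private lemma bwdF_closed (h2 : CTFS) (p q k : ℕ) (ε : ℝ) (M : ℕ) : IsClosed (bwdF p q k ε M) := by
  have h : bwdF p q k ε M = ⋂ N : ℕ, ⋂ _ : M ≤ N, {μ : PP p | ‖Av q k N (fc μ)‖ ≤ ε} := by
    ext μ
    simp [bwdF]
  rw [h]
  exact isClosed_iInter fun N => isClosed_iInter fun _ =>
    isClosed_le (bwd_avc h2 p q k N).norm continuous_const

private lemma bwd_near_open (h2 : CTFS) (p m : ℕ) (η : ℝ) (d : ℕ → ℂ) :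
    IsOpen {μ : PP p | Near m η (fc μ) d} := by
  have h : {μ : PP p | Near m η (fc μ) d} = ⋂ j ∈ Finset.range (m + 1), {μ : PP p | ‖fc μ j - d j‖ < η} := by
    ext μ
    simp only [Near, Set.mem_ofPred_eq, Set.mem_iInter, Finset.mem_range]
    exact ⟨fun h j hj => h j (by omega), fun h j hj => h j (by omega)⟩
  rw [h]
  refine isOpen_biInter_finset fun j _ => ?_
  exact isOpen_lt ((h2 p j).sub continuous_const).norm continuous_const

private lemma bwd_av_congr (q k N : ℕ) (c d : ℕ → ℂ) (h : ∀ j, c j = d j) : Av q k N c = Av q k N d := by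
  have : c = d := funext h
  rw [this]

private lemma bwdU_dense (h2 : CTFS) (h3 : NBHS) (h4 : ORBS) (h5 : DNSS) (p q : ℕ) (hp : 2 ≤ p)
    (hC : Crit p q) (k : ℕ) (hk : 1 ≤ k) (ε : ℝ) (hε : 0 < ε) : Dense (bwdU p q k ε) := by
  rw [dense_iff_inter_open]
  intro W hW hWne
  obtain ⟨L0, a0, hL0, μ0, hμ0, hfc0⟩ := h5 p hp W hW hWne
  obtain ⟨m0, η0, hη0, hnb⟩ := h3 p μ0 W hW hμ0
  obtain ⟨L1, hL1, a1, hnear, m, η, hη, M, hM⟩ := hC k hk ε hε L0 hL0 a0 m0 η0 hη0
  obtain ⟨μ1, hfc1⟩ := h4 p L1 a1 hp hL1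
  have hμ1 : μ1 ∈ W := by
    refine hnb μ1 fun j hj => ?_
    rw [hfc1, hfc0]
    exact hnear j hj
  refine ⟨μ1, hμ1, Set.mem_iUnion.2 ⟨M, ?_⟩⟩
  rw [mem_interior]
  refine ⟨{μ : PP p | Near m η (fc μ) (S p L1 a1)}, ?_, bwd_near_open h2 p m η _, ?_⟩
  · intro μ hμ
    have hcl : μ ∈ closure (bwdF p q k ε M) := by
      rw [mem_closure_iff]
      intro O hO hμO
      obtain ⟨L, a, hL, ν, hν, hfcν⟩ := h5 p hp (O ∩ {μ : PP p | Near m η (fc μ) (S p L1 a1)})
        (hO.inter (bwd_near_open h2 p m η _)) ⟨μ, hμO, hμ⟩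
      refine ⟨ν, hν.1, fun N hN => ?_⟩
      rw [bwd_av_congr q k N _ _ hfcν]
      refine hM L hL a (fun j hj => ?_) N hN
      have := hν.2 j hj
      rw [hfcν] at this
      exact this
    rwa [(bwdF_closed h2 p q k ε M).closure_eq] at hcl
  · intro j hj
    rw [hfc1, sub_self, norm_zero]
    exact hη

theorem bwd_thm (h1 : CPTS) (h2 : CTFS) (h3 : NBHS) (h4 : ORBS) (h5 : DNSS) (h6 : WYCS) (h7 : ATOS) :
    BWDS := by
  intro p q hp hq hC
  have : BaireSpace (PP p) := (h1 p).2.2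
  refine ⟨⋂ x : ℕ × ℕ, bwdU p q (x.1 + 1) (1 / ((x.2 : ℝ) + 1)), ?_, ?_, ?_⟩
  · exact IsGδ.iInter_of_isOpen fun x => isOpen_iUnion fun M => isOpen_interior
  · exact dense_iInter_of_isOpen (fun x => isOpen_iUnion fun M => isOpen_interior)
      fun x => bwdU_dense h2 h3 h4 h5 p q hp hC (x.1 + 1) (by omega) _ (by positivity)
  · intro μ hμ
    have hE : Equi q μ.1 := by
      refine h6 p q μ fun k hk => ?_
      rw [Metric.tendsto_atTop]
      intro ε hε
      obtain ⟨i, hi⟩ := exists_nat_one_div_lt hε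
      have h := Set.mem_iInter.1 hμ (k - 1, i)
      obtain ⟨M, hM⟩ := Set.mem_iUnion.1 h
      have hM' := interior_subset hM
      have hk1 : k - 1 + 1 = k := by omega
      refine ⟨M, fun N hN => ?_⟩
      rw [dist_zero_right]
      have := hM' N hN
      simp only [hk1] at this
      exact lt_of_le_of_lt this hi
    exact ⟨h7 p q μ hp hE, hE⟩

end Pool.UCR
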