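import Pool.Agent.H12.UCR.Stmts4

/-!
# MP_e822af, board `ucr`, row TRO: the transfer operator
-/

set_option autoImplicit false

open MeasureTheory Filter Topology

namespace Pool.UCR

private lemma tro_cont (s : ℝ) : Continuous (fun t : ℝ => ph s t) := by
  unfold ph
  fun_prop

private lemma tro_cos (p : ℕ) (hp : 2 ≤ p) (z : ℝ) :
    ∑ d ∈ Finset.range p, Real.cos (2 * Real.pi * ((z + d) / p)) = 0 := by
  have hp0 : (p : ℂ) ≠ 0 := by
    have : p ≠ 0 := by omega
    exact_mod_cast this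
  have h := (Complex.isPrimitiveRoot_exp p (by omega)).geom_sum_eq_zero (by omega : 1 < p)
  have h1 : ∀ d ∈ Finset.range p, Real.cos (2 * Real.pi * ((z + d) / p)) =
      (Complex.exp (2 * Real.pi * Complex.I * (z / p)) *
        Complex.exp (2 * Real.pi * Complex.I / p) ^ d).re := by
    intro d _
    rw [← Complex.exp_nat_mul, ← Complex.exp_add]
    have h2 : (2 * Real.pi * Complex.I * (z / p) + d * (2 * Real.pi * Complex.I / p) : ℂ) =
        ((2 * Real.pi * ((z + d) / p) : ℝ) : ℂ) * Complex.I := by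
      push_cast
      field_simp
    rw [h2, Complex.exp_ofReal_mul_I_re]
  rw [Finset.sum_congr rfl h1, ← Complex.re_sum, ← Finset.mul_sum, h, mul_zero, Complex.zero_re]

private lemma tro_mean (h : PHNS) (p : ℕ) (s : ℝ) (hp : 2 ≤ p) (h0 : 0 ≤ s) (h1 : s ≤ 1) (z : ℝ) :
    (p : ℝ)⁻¹ * ∑ d ∈ Finset.range p, ‖ph s ((z + d) / p)‖ ≤ √(1 - 2 * s * (1 - s)) := by
  have hp0 : (0 : ℝ) < p := by
    have : 0 < p := by omega
    exact_mod_cast this
  apply Real.le_sqrt_of_sq_le
  have hcs : (∑ d ∈ Finset.range p, ‖ph s ((z + d) / p)‖) ^ 2 ≤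
      p * ∑ d ∈ Finset.range p, ‖ph s ((z + d) / p)‖ ^ 2 := by
    have := sq_sum_le_card_mul_sum_sq (s := Finset.range p) (f := fun d : ℕ => ‖ph s ((z + d) / p)‖)
    simpa using this
  have hs : ∑ d ∈ Finset.range p, ‖ph s ((z + d) / p)‖ ^ 2 = p * (1 - 2 * s * (1 - s)) := by
    have h2 : ∀ d ∈ Finset.range p, ‖ph s ((z + d) / p)‖ ^ 2 =
        (1 - 2 * s * (1 - s)) + 2 * s * (1 - s) * Real.cos (2 * Real.pi * ((z + d) / p)) := by
      intro d _
      rw [(h s ((z + d) / p) h0 h1).1]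
      ring
    rw [Finset.sum_congr rfl h2, Finset.sum_add_distrib, ← Finset.mul_sum, tro_cos p hp z]
    simp
    ring
  rw [hs] at hcs
  rw [mul_pow]
  calc ((p : ℝ)⁻¹) ^ 2 * (∑ d ∈ Finset.range p, ‖ph s ((z + d) / p)‖) ^ 2
      ≤ ((p : ℝ)⁻¹) ^ 2 * (p * (p * (1 - 2 * s * (1 - s)))) := by gcongr
    _ = 1 - 2 * s * (1 - s) := by field_simp

theorem tro_thm (h : PHNS) : TROS := by
  intro p s hp h0 h1 J
  have hp0 : (0 : ℝ) < p := by
    have : 0 < p := by omega
    exact_mod_cast this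
  have hpn : (p : ℝ) ≠ 0 := hp0.ne'
  have hcG : ∀ J : ℕ, Continuous (fun y : ℝ => ∏ j ∈ Finset.range J, ‖ph s ((p : ℝ) ^ j * y)‖) := by
    intro J
    refine continuous_finsetProd _ fun j _ => ?_
    exact ((tro_cont s).comp (continuous_const.mul continuous_id)).norm
  have hper : ∀ (J d : ℕ) (z : ℝ), ∏ j ∈ Finset.range J, ‖ph s ((p : ℝ) ^ j * (z + d))‖ =
      ∏ j ∈ Finset.range J, ‖ph s ((p : ℝ) ^ j * z)‖ := by
    intro J d z
    refine Finset.prod_congr rfl fun j _ => ?_
    have h2 : (p : ℝ) ^ j * (z + d) = (p : ℝ) ^ j * z + (((p ^ j * d : ℕ) : ℤ) : ℝ) := by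
      push_cast
      ring
    rw [h2, (h s _ h0 h1).2.2.1]
  induction J with
  | zero => simp
  | succ J ih =>
    set f : ℝ → ℝ := fun z => ‖ph s (z / p)‖ * ∏ j ∈ Finset.range J, ‖ph s ((p : ℝ) ^ j * z)‖ with hf
    have hfc : Continuous f := by
      refine Continuous.mul ?_ (hcG J)
      exact ((tro_cont s).comp (continuous_id.div_const _)).norm
    have e1 : ∀ y : ℝ, ∏ j ∈ Finset.range (J + 1), ‖ph s ((p : ℝ) ^ j * y)‖ = f (p * y) := by
      intro y
      rw [Finset.prod_range_succ']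
      simp only [hf]
      rw [mul_comm, pow_zero, one_mul, mul_div_cancel_left₀ _ hpn]
      congr 1
      refine Finset.prod_congr rfl fun j _ => ?_
      congr 2
      ring
    have e2 : ∫ y in (0 : ℝ)..1, ∏ j ∈ Finset.range (J + 1), ‖ph s ((p : ℝ) ^ j * y)‖ =
        (p : ℝ)⁻¹ * ∫ z in (0 : ℝ)..p, f z := by
      rw [intervalIntegral.integral_congr (fun y _ => e1 y),
        intervalIntegral.integral_comp_mul_left f hpn]
      simp
    have e3 : ∫ z in (0 : ℝ)..p, f z = ∑ d ∈ Finset.range p, ∫ z in (0 : ℝ)..1, f (z + d) := by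
      have h3 := intervalIntegral.sum_integral_adjacent_intervals (f := f) (μ := volume)
        (a := fun k : ℕ => (k : ℝ)) (n := p) (fun k _ => hfc.intervalIntegrable _ _)
      simp only [Nat.cast_zero] at h3
      rw [← h3]
      refine Finset.sum_congr rfl fun d _ => ?_
      rw [intervalIntegral.integral_comp_add_right]
      simp [add_comm]
    have e4 : ∑ d ∈ Finset.range p, ∫ z in (0 : ℝ)..1, f (z + d) =
        ∫ z in (0 : ℝ)..1, ∑ d ∈ Finset.range p, f (z + d) := by
      rw [intervalIntegral.integral_finsetSum]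
      intro d _
      exact (hfc.comp (continuous_id.add continuous_const)).intervalIntegrable _ _
    rw [e2, e3, e4, ← intervalIntegral.integral_const_mul]
    have e5 : ∫ z in (0 : ℝ)..1, (p : ℝ)⁻¹ * ∑ d ∈ Finset.range p, f (z + d) ≤
        ∫ z in (0 : ℝ)..1, √(1 - 2 * s * (1 - s)) * ∏ j ∈ Finset.range J, ‖ph s ((p : ℝ) ^ j * z)‖ := by
      refine intervalIntegral.integral_mono_on zero_le_one ?_ ?_ ?_
      · refine Continuous.intervalIntegrable ?_ _ _
        refine continuous_const.mul (continuous_finsetSum _ fun d _ => ?_)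
        exact hfc.comp (continuous_id.add continuous_const)
      · exact (continuous_const.mul (hcG J)).intervalIntegrable _ _
      · intro z _
        have h4 : ∀ d ∈ Finset.range p, f (z + d) =
            ‖ph s ((z + d) / p)‖ * ∏ j ∈ Finset.range J, ‖ph s ((p : ℝ) ^ j * z)‖ := by
          intro d _
          simp only [hf]
          rw [hper J d z]
        rw [Finset.sum_congr rfl h4, ← Finset.sum_mul, ← mul_assoc]
        exact mul_le_mul_of_nonneg_right (tro_mean h p s hp h0 h1 z)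
          (Finset.prod_nonneg fun j _ => norm_nonneg _)
    refine e5.trans ?_
    rw [intervalIntegral.integral_const_mul, pow_succ, mul_comm]
    exact mul_le_mul_of_nonneg_right ih (Real.sqrt_nonneg _)

end Pool.UCR
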